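import Pool.Agent.H.MP_645dd0_co.Defs

set_option autoImplicit false

namespace Pool.Agent.Results.MP_645dd0_co.Counter

open Pool.Agent.H.MP_645dd0_co SimpleGraph

/-- vertex `0` joined to everything, the star with centre `1` and leaves `2,3,4,5`, and the
disjoint edges `67, 89, …` -/
def S (n : ℕ) : SimpleGraph (Fin n) :=
  SimpleGraph.fromRel fun a b =>
    a.val = 0 ∨ (a.val = 1 ∧ b.val ≤ 5) ∨ (6 ≤ a.val ∧ 6 ≤ b.val ∧ a.val / 2 = b.val / 2)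

theorem S_adj {n : ℕ} (a b : Fin n) : (S n).Adj a b ↔ a.val ≠ b.val ∧
    (a.val = 0 ∨ b.val = 0 ∨ (a.val = 1 ∧ b.val ≤ 5) ∨ (b.val = 1 ∧ a.val ≤ 5) ∨
      (6 ≤ a.val ∧ 6 ≤ b.val ∧ a.val / 2 = b.val / 2)) := by
  simp only [S, fromRel_adj, ne_eq, Fin.ext_iff]
  omega

theorem H_adj {n : ℕ} (a b : Fin n) : (H n).Adj a b ↔ a.val ≠ b.val ∧
    (a.val = 0 ∨ b.val = 0 ∨ (a.val ≤ 3 ∧ b.val ≤ 3) ∨
      (4 ≤ a.val ∧ 4 ≤ b.val ∧ a.val / 2 = b.val / 2)) := by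
  simp only [H, fromRel_adj, ne_eq, Fin.ext_iff]
  omega

theorem mk {V : Type} (K : SimpleGraph V) (a b c x y z : V) (hab : K.Adj a b) (hac : K.Adj a c)
    (hbc : K.Adj b c) (hax : K.Adj a x) (hby : K.Adj b y) (hcz : K.Adj c z)
    (h1 : x ≠ b) (h2 : x ≠ c) (h3 : y ≠ a) (h4 : y ≠ c) (h5 : z ≠ a) (h6 : z ≠ b)
    (h7 : x ≠ y) (h8 : x ≠ z) (h9 : y ≠ z) : net.IsContained K := by
  have e1 := hab.ne
  have e2 := hac.ne
  have e3 := hbc.ne
  have e4 := hax.ne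
  have e5 := hby.ne
  have e6 := hcz.ne
  refine ⟨⟨⟨![a, b, c, x, y, z], ?_⟩, ?_⟩⟩
  · intro i j hij
    fin_cases i <;> fin_cases j <;> simp [net] at hij ⊢ <;>
      first | assumption | exact (by assumption : K.Adj _ _).symm | skip
    all_goals first | exact hab.symm | exact hac.symm | exact hbc.symm | exact hax.symm |
      exact hby.symm | exact hcz.symm
  · intro i j hij
    fin_cases i <;> fin_cases j <;> simp at hij ⊢ <;> simp_all

theorem deg3 {n : ℕ} (v a b c : Fin n) (ha : (S n).Adj v a) (hb : (S n).Adj v b)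
    (hc : (S n).Adj v c) (hab : a ≠ b) (hac : a ≠ c) (hbc : b ≠ c) : v.val ≤ 1 := by
  rw [S_adj] at ha hb hc
  rw [ne_eq, Fin.ext_iff] at hab hac hbc
  omega

theorem S_free (n : ℕ) : ¬ net.IsContained (S n) := by
  rintro ⟨f⟩
  have adj : ∀ i j, net.Adj i j → (S n).Adj (f i) (f j) := fun i j h => f.toHom.map_rel h
  have ne : ∀ i j, i ≠ j → f i ≠ f j := fun i j h e => h (f.injective e)
  have h0 := deg3 (f 0) (f 1) (f 2) (f 3) (adj _ _ (by simp [net])) (adj _ _ (by simp [net]))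
    (adj _ _ (by simp [net])) (ne _ _ (by decide)) (ne _ _ (by decide)) (ne _ _ (by decide))
  have h1 := deg3 (f 1) (f 0) (f 2) (f 4) (adj _ _ (by simp [net])) (adj _ _ (by simp [net]))
    (adj _ _ (by simp [net])) (ne _ _ (by decide)) (ne _ _ (by decide)) (ne _ _ (by decide))
  have h2 := deg3 (f 2) (f 0) (f 1) (f 5) (adj _ _ (by simp [net])) (adj _ _ (by simp [net]))
    (adj _ _ (by simp [net])) (ne _ _ (by decide)) (ne _ _ (by decide)) (ne _ _ (by decide))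
  have n1 := ne 0 1 (by decide)
  have n2 := ne 0 2 (by decide)
  have n3 := ne 1 2 (by decide)
  rw [ne_eq, Fin.ext_iff] at n1 n2 n3
  omega

theorem S_add {n : ℕ} (hn : 6 ≤ n) (he : Even n) (u v : Fin n) (huv : u.val < v.val)
    (h : ¬ (S n).Adj u v) : net.IsContained (S n ⊔ edge u v) := by
  obtain ⟨k, hk⟩ := he
  have hne : u ≠ v := fun e => by rw [e] at huv; omega
  have huv' : (S n ⊔ edge u v).Adj u v := Or.inr (by rw [edge_adj]; exact ⟨Or.inl ⟨rfl, rfl⟩, hne⟩)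
  have up : ∀ a b : Fin n, (S n).Adj a b → (S n ⊔ edge u v).Adj a b := fun a b h => Or.inl h
  have hv := v.isLt
  have pt : ∀ w : Fin n, 6 ≤ w.val → ∃ w' : Fin n, 6 ≤ w'.val ∧ w'.val ≠ w.val ∧
      w'.val / 2 = w.val / 2 := fun w hw => by
    have := w.isLt
    rcases Nat.even_or_odd' w.val with ⟨j, hj | hj⟩
    · exact ⟨⟨w.val + 1, by omega⟩, by simp only; omega⟩
    · exact ⟨⟨w.val - 1, by omega⟩, by simp only; omega⟩
  rw [S_adj] at h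
  obtain ⟨z, hz⟩ : ∃ z : Fin n, z.val = 0 := ⟨⟨0, by omega⟩, rfl⟩
  obtain ⟨c, hc⟩ : ∃ c : Fin n, c.val = 1 := ⟨⟨1, by omega⟩, rfl⟩
  rcases Nat.lt_or_ge u.val 6 with h6 | h6
  · obtain ⟨x, y, hx⟩ : ∃ x y : ℕ, 2 ≤ x ∧ x ≤ 5 ∧ 2 ≤ y ∧ y ≤ 5 ∧ x ≠ y ∧ x ≠ u.val ∧
        x ≠ v.val ∧ y ≠ u.val ∧ y ≠ v.val := by
      by_cases a2 : u.val = 2 ∨ v.val = 2 <;> by_cases a3 : u.val = 3 ∨ v.val = 3 <;>
        by_cases a4 : u.val = 4 ∨ v.val = 4
      · omega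
      · exact ⟨4, 5, by omega⟩
      · exact ⟨3, 5, by omega⟩
      · exact ⟨3, 4, by omega⟩
      · exact ⟨2, 5, by omega⟩
      · exact ⟨2, 4, by omega⟩
      · exact ⟨2, 3, by omega⟩
      · exact ⟨2, 3, by omega⟩
    obtain ⟨x', hx'⟩ : ∃ x' : Fin n, x'.val = x := ⟨⟨x, by omega⟩, rfl⟩
    obtain ⟨y', hy'⟩ : ∃ y' : Fin n, y'.val = y := ⟨⟨y, by omega⟩, rfl⟩
    rcases Nat.lt_or_ge u.val 2 with h2 | h2
    · obtain ⟨v', hv'⟩ := pt v (by omega)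
      refine mk _ z u v x' y' v' (up _ _ ?_) (up _ _ ?_) huv' (up _ _ ?_) (up _ _ ?_) (up _ _ ?_)
        ?_ ?_ ?_ ?_ ?_ ?_ ?_ ?_ ?_ <;>
        first | (rw [S_adj]; omega) | (rw [ne_eq, Fin.ext_iff]; omega)
    · refine mk _ z c u x' y' v (up _ _ ?_) (up _ _ ?_) (up _ _ ?_) (up _ _ ?_) (up _ _ ?_) huv'
        ?_ ?_ ?_ ?_ ?_ ?_ ?_ ?_ ?_ <;>
        first | (rw [S_adj]; omega) | (rw [ne_eq, Fin.ext_iff]; omega)
  · obtain ⟨u', hu'⟩ := pt u h6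
    obtain ⟨v', hv'⟩ := pt v (by omega)
    refine mk _ z u v c u' v' (up _ _ ?_) (up _ _ ?_) huv' (up _ _ ?_) (up _ _ ?_) (up _ _ ?_)
      ?_ ?_ ?_ ?_ ?_ ?_ ?_ ?_ ?_ <;>
      first | (rw [S_adj]; omega) | (rw [ne_eq, Fin.ext_iff]; omega)

theorem S_sat {n : ℕ} (hn : 6 ≤ n) (he : Even n) : Saturated net (S n) := by
  refine ⟨S_free n, fun u v hne h => ?_⟩
  rcases lt_trichotomy u.val v.val with h1 | h1 | h1
  · exact S_add hn he u v h1 h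
  · exact absurd (Fin.ext h1) hne
  · rw [edge_comm]
    exact S_add hn he v u h1 fun h' => h h'.symm

theorem S_card {n : ℕ} (hn : 6 ≤ n) : (S n).edgeSet.ncard = (H n).edgeSet.ncard := by
  obtain ⟨a1, h1⟩ : ∃ z : Fin n, z.val = 1 := ⟨⟨1, by omega⟩, rfl⟩
  obtain ⟨a2, h2⟩ : ∃ z : Fin n, z.val = 2 := ⟨⟨2, by omega⟩, rfl⟩
  obtain ⟨a3, h3⟩ : ∃ z : Fin n, z.val = 3 := ⟨⟨3, by omega⟩, rfl⟩
  obtain ⟨a4, h4⟩ : ∃ z : Fin n, z.val = 4 := ⟨⟨4, by omega⟩, rfl⟩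
  obtain ⟨a5, h5⟩ : ∃ z : Fin n, z.val = 5 := ⟨⟨5, by omega⟩, rfl⟩
  have e1 : (S n).edgeSet = insert s(a1, a4) (insert s(a1, a5) (S n ⊓ H n).edgeSet) := by
    ext e
    induction e using Sym2.ind with
    | h a b =>
      simp only [mem_edgeSet, Set.mem_insert_iff, Sym2.eq_iff, inf_adj, S_adj, H_adj, Fin.ext_iff]
      omega
  have e2 : (H n).edgeSet = insert s(a2, a3) (insert s(a4, a5) (S n ⊓ H n).edgeSet) := by
    ext e
    induction e using Sym2.ind with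
    | h a b =>
      simp only [mem_edgeSet, Set.mem_insert_iff, Sym2.eq_iff, inf_adj, S_adj, H_adj, Fin.ext_iff]
      omega
  rw [e1, e2]
  rw [Set.ncard_insert_of_notMem, Set.ncard_insert_of_notMem, Set.ncard_insert_of_notMem,
    Set.ncard_insert_of_notMem]
  all_goals
    simp only [mem_edgeSet, Set.mem_insert_iff, Sym2.eq_iff, inf_adj, S_adj, H_adj, Fin.ext_iff]
    omega

theorem S_noniso {n : ℕ} (hn : 6 ≤ n) : IsEmpty (S n ≃g H n) := by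
  refine ⟨fun φ => ?_⟩
  obtain ⟨a0, h0⟩ : ∃ z : Fin n, z.val = 0 := ⟨⟨0, by omega⟩, rfl⟩
  obtain ⟨a1, h1⟩ : ∃ z : Fin n, z.val = 1 := ⟨⟨1, by omega⟩, rfl⟩
  obtain ⟨a2, h2⟩ : ∃ z : Fin n, z.val = 2 := ⟨⟨2, by omega⟩, rfl⟩
  obtain ⟨a3, h3⟩ : ∃ z : Fin n, z.val = 3 := ⟨⟨3, by omega⟩, rfl⟩
  have key : ∀ a b : Fin n, a.val ≤ 3 → b.val ≤ 3 → a.val ≠ b.val →
      (S n).Adj (φ.symm a) (φ.symm b) := fun a b ha hb hab =>
    φ.symm.map_rel_iff.2 (by rw [H_adj]; omega)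
  have t : ∀ p q r : Fin n, (S n).Adj p q → (S n).Adj p r → (S n).Adj q r →
      p.val = 0 ∨ q.val = 0 ∨ r.val = 0 := fun p q r h1 h2 h3 => by
    rw [S_adj] at h1 h2 h3
    omega
  have k01 := key a0 a1 (by omega) (by omega) (by omega)
  have k02 := key a0 a2 (by omega) (by omega) (by omega)
  have k03 := key a0 a3 (by omega) (by omega) (by omega)
  have k12 := key a1 a2 (by omega) (by omega) (by omega)
  have k13 := key a1 a3 (by omega) (by omega) (by omega)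
  have k23 := key a2 a3 (by omega) (by omega) (by omega)
  have t1 := t _ _ _ k01 k02 k12
  have t2 := t _ _ _ k01 k03 k13
  have t3 := t _ _ _ k02 k03 k23
  have t4 := t _ _ _ k12 k13 k23
  have n01 := ((S_adj _ _).1 k01).1
  have n02 := ((S_adj _ _).1 k02).1
  have n03 := ((S_adj _ _).1 k03).1
  have n12 := ((S_adj _ _).1 k12).1
  have n13 := ((S_adj _ _).1 k13).1
  have n23 := ((S_adj _ _).1 k23).1
  omega

theorem main {n : ℕ} (hn : 6 ≤ n) (he : Even n) : ∃ G : SimpleGraph (Fin n),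
    Saturated net G ∧ G.edgeSet.ncard = sat n net ∧ IsEmpty (G ≃g H n) := by
  by_contra! hc
  obtain ⟨M, hM, hMc⟩ : sat n net ∈
      {m : ℕ | ∃ G : SimpleGraph (Fin n), Saturated net G ∧ G.edgeSet.ncard = m} :=
    Nat.sInf_mem ⟨_, S n, S_sat hn he, rfl⟩
  obtain ⟨φ⟩ := hc M hM hMc
  have e : M.edgeSet.ncard = (H n).edgeSet.ncard := by
    rw [← Nat.card_coe_set_eq, ← Nat.card_coe_set_eq]
    exact Nat.card_congr φ.mapEdgeSet
  obtain ⟨ψ⟩ := hc (S n) (S_sat hn he) (by rw [S_card hn, ← e, hMc])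
  exact (S_noniso hn).false ψ

/-- For every even `n ≥ 6` some `K_3^3`-saturated graph on `n` vertices with the minimum number
of edges is not isomorphic to `H_n`; so no constant `k*` as in Q1 exists. -/
theorem result :
    (∀ n : ℕ, 6 ≤ n → Even n → Saturated net (S n) ∧
      (S n).edgeSet.ncard = (H n).edgeSet.ncard ∧ IsEmpty (S n ≃g H n)) ∧
    (∀ n : ℕ, 6 ≤ n → Even n → ∃ G : SimpleGraph (Fin n),
      Saturated net G ∧ G.edgeSet.ncard = sat n net ∧ IsEmpty (G ≃g H n)) ∧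
    ¬ ∃ k : ℕ, ∀ n : ℕ, k ≤ n → Even n → ∀ G : SimpleGraph (Fin n),
      Saturated net G → G.edgeSet.ncard = sat n net → Nonempty (G ≃g H n) := by
  refine ⟨fun n hn he => ⟨S_sat hn he, S_card hn, S_noniso hn⟩, fun n hn he => main hn he, ?_⟩
  rintro ⟨k, hk⟩
  obtain ⟨G, h1, h2, h3⟩ := main (n := 2 * k + 6) (by omega) ⟨k + 3, by omega⟩
  obtain ⟨φ⟩ := hk (2 * k + 6) (by omega) ⟨k + 3, by omega⟩ G h1 h2
  exact h3.false φ

end Pool.Agent.Results.MP_645dd0_co.Counter
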